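import Pool.Agent.Helper20.CP.Spec

set_option autoImplicit false

open MeasureTheory ProbabilityTheory Filter Topology
open scoped ENNReal

namespace Pool.Agent.Helper3.CP

open Pool.Agent.Helper20.CP

theorem card_eq {X V : Type} [Fintype X] [DecidableEq X] [Fintype V] (vt : X → V) :
    Fintype.card X = ∑ v, dg vt v := by
  classical
  unfold dg
  rw [← Finset.card_univ]
  convert Finset.card_eq_sum_card_fiberwise (s := (Finset.univ : Finset X)) (t := Finset.univ)
    (f := vt) (fun x _ => Finset.mem_coe.2 (Finset.mem_univ (vt x)))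

theorem avg_mono {X : Type} [Fintype X] {F G : Equiv.Perm X → ℝ≥0∞} (h : ∀ σ, F σ ≤ G σ) :
    avg F ≤ avg G := by
  unfold avg
  exact ENNReal.div_le_div_right (Finset.sum_le_sum fun σ _ => h σ) _

theorem ind_mono {p q : Prop} (h : p → q) : ind p ≤ ind q := by
  unfold ind
  by_cases h1 : p
  · simp [h1, h h1]
  · simp [h1]

theorem card_le {X V : Type} [Fintype X] [DecidableEq X] [Fintype V] (vt : X → V)
    (h2 : ∀ v, 2 ≤ dg vt v) : 2 * Fintype.card V ≤ Fintype.card X := by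
  rw [card_eq vt, ← Finset.card_univ, mul_comm, ← smul_eq_mul]
  exact Finset.card_nsmul_le_sum _ _ _ fun v _ => h2 v

theorem frac_bound (n : ℝ) (hn : 0 < n) (k : ℕ) (Xc : ℝ) (hX : ∀ r < k + 1, n ≤ Xc - 2 * (r : ℝ) - 1)
    (A A' : ℝ) (hA : 0 ≤ A) (hA' : A ≤ A') (P p : ℕ → ℝ) (hP : ∀ i < k, 0 ≤ P i)
    (hP' : ∀ i < k, P i ≤ n * p i) (Z z : ℝ) (hZ : 0 ≤ Z) (hZ' : Z ≤ z) :
    A * (∏ i ∈ Finset.range k, P i) * Z / ∏ r ∈ Finset.range (k + 1), (Xc - 2 * (r : ℝ) - 1) ≤
      A' * (∏ i ∈ Finset.range k, p i) * (z / n) := by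
  have h1 : (∏ i ∈ Finset.range k, P i) ≤ n ^ k * ∏ i ∈ Finset.range k, p i := by
    have : n ^ k * ∏ i ∈ Finset.range k, p i = ∏ i ∈ Finset.range k, (n * p i) := by
      rw [Finset.prod_mul_distrib]; simp
    rw [this]
    exact Finset.prod_le_prod (fun i hi => hP i (Finset.mem_range.1 hi))
      (fun i hi => hP' i (Finset.mem_range.1 hi))
  have h0 : 0 ≤ ∏ i ∈ Finset.range k, P i :=
    Finset.prod_nonneg fun i hi => hP i (Finset.mem_range.1 hi)
  have h2 : n ^ (k + 1) ≤ ∏ r ∈ Finset.range (k + 1), (Xc - 2 * (r : ℝ) - 1) := by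
    have : n ^ (k + 1) = ∏ r ∈ Finset.range (k + 1), n := by simp
    rw [this]
    exact Finset.prod_le_prod (fun i hi => hn.le) (fun i hi => hX i (Finset.mem_range.1 hi))
  have hnk : 0 < n ^ (k + 1) := pow_pos hn _
  have hp0 : 0 ≤ n ^ k * ∏ i ∈ Finset.range k, p i := h0.trans h1
  have hnum : A * (∏ i ∈ Finset.range k, P i) * Z ≤ A' * (n ^ k * ∏ i ∈ Finset.range k, p i) * z := by
    apply mul_le_mul _ hZ' hZ (mul_nonneg (hA.trans hA') hp0)
    exact mul_le_mul hA' h1 h0 (hA.trans hA')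
  have hnum0 : 0 ≤ A' * (n ^ k * ∏ i ∈ Finset.range k, p i) * z :=
    mul_nonneg (mul_nonneg (hA.trans hA') hp0) (hZ.trans hZ')
  calc A * (∏ i ∈ Finset.range k, P i) * Z / ∏ r ∈ Finset.range (k + 1), (Xc - 2 * (r : ℝ) - 1)
      ≤ A' * (n ^ k * ∏ i ∈ Finset.range k, p i) * z / n ^ (k + 1) := by
        apply div_le_div₀ hnum0 hnum hnk h2
    _ = A' * (∏ i ∈ Finset.range k, p i) * (z / n) := by
        rw [pow_succ]
        field_simp

theorem geom_id (γ : ℝ) (hγ : 1 < γ) (k : ℕ) :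
    ∑ j ∈ Finset.range k, γ ^ (j + 1) = (γ ^ (k + 1) - γ) / (γ - 1) := by
  have h : γ - 1 ≠ 0 := by linarith
  rw [eq_div_iff h]
  induction k with
  | zero => simp
  | succ k ih => rw [Finset.sum_range_succ, add_mul, ih]; ring

theorem mainBBAD (hFM : S_FM) : S_BBAD := by
  intro X V _ _ _ vt b0 γ s a hb0 hγ hs hsa ha hcg hR u hu i hi hin
  classical
  obtain ⟨k, rfl⟩ : ∃ k, i = k + 1 := ⟨i - 1, by omega⟩
  have hX : 2 * Fintype.card V ≤ Fintype.card X := card_le vt hR.two
  have hb : 0 < b0 := by linarith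
  let C : ℕ → Finset V := fun j =>
    if j = k + 1 then Finset.univ.filter (fun v => b0 ^ (γ ^ (k + 1) : ℝ) < (dg vt v : ℝ))
    else Finset.univ.filter (fun v => (dg vt v : ℝ) ≤ b0 ^ (γ ^ j : ℝ))
  have hC1 : C (k + 1) = Finset.univ.filter (fun v => b0 ^ (γ ^ (k + 1) : ℝ) < (dg vt v : ℝ)) := by
    simp [C]
  have hC2 : ∀ j, j ≠ k + 1 → C j = Finset.univ.filter (fun v => (dg vt v : ℝ) ≤ b0 ^ (γ ^ j : ℝ)) := by
    intro j hj
    simp [C, hj]
  refine (avg_mono (fun σ => ind_mono ?_)).trans ((hFM X V vt u k C (by omega)).trans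
    (ENNReal.ofReal_le_ofReal ?_))
  · rintro ⟨π, h0, hp, h1, h2⟩
    refine ⟨π, h0, hp, fun j hj1 hj2 => ?_⟩
    by_cases hj : j = k + 1
    · subst hj
      rw [hC1]
      simpa using h2
    · rw [hC2 j hj]
      simpa using h1 j hj1 (by omega)
  · have hn0 : (0 : ℝ) < Fintype.card V := by
      have : 0 < Fintype.card V := by omega
      exact_mod_cast this
    have hXr : (2 : ℝ) * Fintype.card V ≤ Fintype.card X := by exact_mod_cast hX
    have hin' : 2 * ((k : ℝ) + 1) ≤ Fintype.card V := by exact_mod_cast hin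
    refine (frac_bound (Fintype.card V) hn0 k (Fintype.card X) ?_ (dg vt u) b0 (Nat.cast_nonneg _) hu
      _ (fun j => b0 ^ (γ ^ (j + 1) * (1 - a + s) : ℝ)) ?_ ?_ _
      (Fintype.card V * b0 ^ (γ ^ (k + 1) * (s - a) : ℝ)) ?_ ?_).trans ?_
    · intro r hr
      have : (r : ℝ) ≤ k := by exact_mod_cast Nat.lt_succ_iff.1 hr
      linarith
    · intro j _
      positivity
    · intro j hj
      rw [hC2 (j + 1) (by omega)]
      have := hR.sq (j + 1)
      convert this
    · exact Finset.sum_nonneg fun v _ => Nat.cast_nonneg _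
    · rw [hC1]
      have := hR.tail (k + 1)
      convert this
    · rw [mul_div_cancel_left₀ _ hn0.ne', ← Real.rpow_sum_of_pos hb]
      have e1 : b0 * b0 ^ (∑ x ∈ Finset.range k, γ ^ (x + 1) * (1 - a + s)) *
          b0 ^ (γ ^ (k + 1) * (s - a)) = b0 ^ (1 + (∑ x ∈ Finset.range k, γ ^ (x + 1) * (1 - a + s)) +
            γ ^ (k + 1) * (s - a)) := by
        rw [Real.rpow_add hb, Real.rpow_add hb, Real.rpow_one]
      rw [e1]
      apply le_of_eq
      congr 1
      rw [← Finset.sum_mul, geom_id γ hγ k]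
      have h : γ - 1 ≠ 0 := by linarith
      field_simp
      ring

theorem min_sum (γ : ℝ) (hγ : 1 < γ) (k : ℕ) :
    ∑ j ∈ Finset.range (k + 1), γ ^ (min j (k - j)) ≤ 2 * γ ^ (k / 2 + 1) / (γ - 1) := by
  have hγ0 : (0 : ℝ) < γ := by linarith
  have hg : (0 : ℝ) < γ - 1 := by linarith
  let f : ℕ → ℝ := fun j => if j ≤ k / 2 then γ ^ j else 0
  have h1 : ∀ j ∈ Finset.range (k + 1), γ ^ (min j (k - j)) ≤ f j + f (k - j) := by
    intro j hj
    have hj' : j ≤ k := Nat.lt_succ_iff.1 (Finset.mem_range.1 hj)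
    have hf0 : ∀ i, 0 ≤ f i := fun i => by
      show 0 ≤ (if i ≤ k / 2 then γ ^ i else 0)
      split_ifs <;> positivity
    rcases le_total j (k - j) with h | h
    · rw [min_eq_left h]
      have : f j = γ ^ j := if_pos (by omega)
      rw [this]
      linarith [hf0 (k - j)]
    · rw [min_eq_right h]
      have : f (k - j) = γ ^ (k - j) := if_pos (by omega)
      rw [this]
      linarith [hf0 j]
  have h2 : ∑ j ∈ Finset.range (k + 1), f (k - j) = ∑ j ∈ Finset.range (k + 1), f j := by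
    have := Finset.sum_range_reflect f (k + 1)
    simpa using this
  have h3 : ∑ j ∈ Finset.range (k + 1), f j = ∑ j ∈ Finset.range (k / 2 + 1), γ ^ j := by
    rw [← Finset.sum_subset (s₁ := Finset.range (k / 2 + 1))]
    · refine Finset.sum_congr rfl fun j hj => if_pos (by have := Finset.mem_range.1 hj; omega)
    · intro j hj
      have := Finset.mem_range.1 hj
      exact Finset.mem_range.2 (by omega)
    · intro j _ hj
      rw [Finset.mem_range] at hj
      exact if_neg (by omega)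
  calc ∑ j ∈ Finset.range (k + 1), γ ^ (min j (k - j))
      ≤ ∑ j ∈ Finset.range (k + 1), (f j + f (k - j)) := Finset.sum_le_sum h1
    _ = 2 * ∑ j ∈ Finset.range (k / 2 + 1), γ ^ j := by
        rw [Finset.sum_add_distrib, h2, h3]; ring
    _ ≤ 2 * γ ^ (k / 2 + 1) / (γ - 1) := by
        rw [geom_sum_eq hγ.ne', mul_div_assoc]
        gcongr
        linarith

theorem mainBGOOD (hFM : S_FM) : S_BGOOD := by
  intro X V _ _ _ vt b0 γ s a hb0 hγ hs hsa ha hR u v hu hv k hk hkn
  classical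
  obtain ⟨k, rfl⟩ : ∃ k', k = k' + 1 := ⟨k - 1, by omega⟩
  have hX : 2 * Fintype.card V ≤ Fintype.card X := card_le vt hR.two
  have hb : 0 < b0 := by linarith
  let C : ℕ → Finset V := fun j =>
    if j = k + 1 then {v}
    else Finset.univ.filter (fun v => (dg vt v : ℝ) ≤ b0 ^ (γ ^ (min j (k + 1 - j)) : ℝ))
  have hC1 : C (k + 1) = {v} := by
    simp [C]
  have hC2 : ∀ j, j ≠ k + 1 → C j =
      Finset.univ.filter (fun v => (dg vt v : ℝ) ≤ b0 ^ (γ ^ (min j (k + 1 - j)) : ℝ)) := by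
    intro j hj
    simp [C, hj]
  refine (avg_mono (fun σ => ind_mono ?_)).trans ((hFM X V vt u k C (by omega)).trans
    (ENNReal.ofReal_le_ofReal ?_))
  · rintro ⟨π, h0, hk', hp, h1⟩
    refine ⟨π, h0, hp, fun j hj1 hj2 => ?_⟩
    by_cases hj : j = k + 1
    · subst hj
      rw [hC1, hk']
      exact Finset.mem_singleton_self v
    · rw [hC2 j hj]
      simpa using h1 j hj1 (by omega)
  · have hn0 : (0 : ℝ) < Fintype.card V := by
      have : 0 < Fintype.card V := by omega
      exact_mod_cast this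
    have hXr : (2 : ℝ) * Fintype.card V ≤ Fintype.card X := by exact_mod_cast hX
    have hin' : 2 * ((k : ℝ) + 1) ≤ Fintype.card V := by exact_mod_cast hkn
    refine (frac_bound (Fintype.card V) hn0 k (Fintype.card X) ?_ (dg vt u) b0 (Nat.cast_nonneg _) hu
      _ (fun j => b0 ^ (γ ^ (min (j + 1) (k + 1 - (j + 1))) * (1 - a + s) : ℝ)) ?_ ?_ _
      b0 ?_ ?_).trans ?_
    · intro r hr
      have : (r : ℝ) ≤ k := by exact_mod_cast Nat.lt_succ_iff.1 hr
      linarith
    · intro j _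
      positivity
    · intro j hj
      rw [hC2 (j + 1) (by omega)]
      have := hR.sq (min (j + 1) (k + 1 - (j + 1)))
      convert this
    · exact Finset.sum_nonneg fun v _ => Nat.cast_nonneg _
    · rw [hC1, Finset.sum_singleton]
      exact hv
    · rw [← Real.rpow_sum_of_pos hb]
      have h0 : ∑ x ∈ Finset.range k, γ ^ (min (x + 1) (k + 1 - (x + 1))) ≤
          ∑ j ∈ Finset.range (k + 1 + 1), γ ^ (min j (k + 1 - j)) := by
        rw [Finset.sum_range_succ' _ (k + 1), Finset.sum_range_succ _ k]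
        have hγ0 : (0 : ℝ) < γ := by linarith
        have h1 : 0 < γ ^ (min (k + 1) (k + 1 - (k + 1))) := by positivity
        have h2 : 0 < γ ^ (min 0 (k + 1 - 0)) := by positivity
        linarith
      have h1 : ∑ x ∈ Finset.range k, γ ^ (min (x + 1) (k + 1 - (x + 1))) * (1 - a + s) ≤
          2 * (1 - a + s) * γ ^ ((k + 1) / 2 + 1) / (γ - 1) := by
        rw [← Finset.sum_mul]
        have h2 := h0.trans (min_sum γ hγ (k + 1))
        have h3 : 0 ≤ 1 - a + s := by linarith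
        calc (∑ x ∈ Finset.range k, γ ^ (min (x + 1) (k + 1 - (x + 1)))) * (1 - a + s)
            ≤ (2 * γ ^ ((k + 1) / 2 + 1) / (γ - 1)) * (1 - a + s) := mul_le_mul_of_nonneg_right h2 h3
          _ = _ := by ring
      calc b0 * b0 ^ (∑ x ∈ Finset.range k, γ ^ (min (x + 1) (k + 1 - (x + 1))) * (1 - a + s)) *
            (b0 / (Fintype.card V : ℝ))
          ≤ b0 * b0 ^ (2 * (1 - a + s) * γ ^ ((k + 1) / 2 + 1) / (γ - 1)) *
            (b0 / (Fintype.card V : ℝ)) := by
            have := Real.rpow_le_rpow_of_exponent_le hb0.le h1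
            gcongr
        _ = _ := by ring

end Pool.Agent.Helper3.CP
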