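import Pool.Agent.Helper20.CP.Spec

set_option autoImplicit false

open MeasureTheory ProbabilityTheory Filter Topology
open scoped ENNReal

namespace Pool.Agent.Helper3.CP

open Pool.Agent.Helper20.CP

/-- Bernoulli. -/
theorem pow_sub_one_ge (γ : ℝ) (hγ : 1 < γ) (i : ℕ) : (i + 1 : ℝ) * (γ - 1) ≤ γ ^ (i + 1) - 1 := by
  have := one_add_mul_le_pow (a := γ - 1) (by linarith) (i + 1)
  push_cast at this
  have e : 1 + (γ - 1) = γ := by ring
  rw [e] at this
  linarith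

theorem third_term (b0 γ ζ : ℝ) (hb : 1 < b0) (hγ : 1 < γ) (hζ : 0 < ζ)
    (hq : b0 ^ (-(ζ * (γ - 1))) ≤ 1 / 2) (m : ℕ) :
    ∑ i ∈ Finset.range m, b0 ^ (-ζ * (γ ^ (i + 1) - 1) : ℝ) ≤ 2 * b0 ^ (-(ζ * (γ - 1))) := by
  set q := b0 ^ (-(ζ * (γ - 1))) with hqd
  have hb0 : 0 < b0 := by linarith
  have hq0 : 0 < q := Real.rpow_pos_of_pos hb0 _
  have h1 : ∀ i ∈ Finset.range m, b0 ^ (-ζ * (γ ^ (i + 1) - 1) : ℝ) ≤ q ^ (i + 1) := by
    intro i _
    have e : q ^ (i + 1) = b0 ^ (-ζ * ((i + 1 : ℝ) * (γ - 1))) := by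
      rw [hqd, ← Real.rpow_natCast, ← Real.rpow_mul hb0.le]
      congr 1
      push_cast
      ring
    rw [e]
    apply Real.rpow_le_rpow_of_exponent_le hb.le
    have := pow_sub_one_ge γ hγ i
    nlinarith
  have h2 : ∀ k : ℕ, ∑ i ∈ Finset.range k, q ^ (i + 1) ≤ 2 * q - 2 * q ^ (k + 1) := by
    intro k
    induction k with
    | zero => simp
    | succ k ih =>
      rw [Finset.sum_range_succ]
      have : q ^ (k + 1 + 1) = q ^ (k + 1) * q := pow_succ _ _
      have hpk : 0 < q ^ (k + 1) := pow_pos hq0 _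
      nlinarith
  calc ∑ i ∈ Finset.range m, b0 ^ (-ζ * (γ ^ (i + 1) - 1) : ℝ) ≤ ∑ i ∈ Finset.range m, q ^ (i + 1) :=
        Finset.sum_le_sum h1
    _ ≤ 2 * q - 2 * q ^ (m + 1) := h2 m
    _ ≤ 2 * q := by have := pow_pos hq0 (m + 1); linarith

/-- `L * exp (C L^θ - L) → 0`. -/
theorem lim_aux (C θ : ℝ) (hθ : θ < 1) :
    Tendsto (fun L : ℝ => L * Real.exp (C * L ^ θ - L)) atTop (𝓝 0) := by
  have h1 : ∀ᶠ L : ℝ in atTop, C * L ^ θ ≤ L / 2 := by
    have h2 : Tendsto (fun L : ℝ => L ^ (-(1 - θ))) atTop (𝓝 0) := tendsto_rpow_neg_atTop (by linarith)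
    have h3 := h2.eventually (gt_mem_nhds (show (0 : ℝ) < 1 / (2 * (|C| + 1)) by positivity))
    filter_upwards [h3, eventually_gt_atTop 0] with L hL hL0
    have hp := Real.rpow_pos_of_pos hL0 θ
    have e : L ^ θ = L ^ (-(1 - θ)) * L := by
      nth_rewrite 3 [← Real.rpow_one L]
      rw [← Real.rpow_add hL0]
      congr 1
      ring
    have h4 : (|C| + 1) * L ^ θ ≤ L / 2 := by
      calc (|C| + 1) * L ^ θ ≤ (|C| + 1) * (1 / (2 * (|C| + 1)) * L) := by
            rw [e]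
            gcongr
        _ = L / 2 := by field_simp
    have h5 : C ≤ |C| := le_abs_self C
    nlinarith
  have h6 : Tendsto (fun L : ℝ => L * Real.exp (-(1 / 2) * L)) atTop (𝓝 0) := by
    have := tendsto_rpow_mul_exp_neg_mul_atTop_nhds_zero 1 (1 / 2) (by norm_num)
    simpa using this
  refine squeeze_zero' ?_ ?_ h6
  · filter_upwards [eventually_gt_atTop 0] with L hL
    positivity
  · filter_upwards [h1, eventually_gt_atTop 0] with L hL hL0
    have : Real.exp (C * L ^ θ - L) ≤ Real.exp (-(1 / 2) * L) := Real.exp_le_exp.2 (by linarith)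
    gcongr

theorem logn_tendsto : Tendsto (fun n : ℕ => Real.log (n : ℝ)) atTop atTop :=
  Real.tendsto_log_atTop.comp tendsto_natCast_atTop_atTop

theorem mainBNUM : S_BNUM := by
  intro a δ ha0 ha1 hδ0 hδ1
  have hla : Real.log a < 0 := Real.log_neg ha0 ha1
  set γ : ℝ := Real.exp ((1 + δ / 2) * (-Real.log a)) with hγd
  have hγ0 : 0 < γ := Real.exp_pos _
  have hγ : 1 < γ := Real.one_lt_exp_iff.2 (by nlinarith)
  have haγ : 1 < a * γ := by
    have h1 : a * γ = Real.exp (Real.log a + (1 + δ / 2) * (-Real.log a)) := by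
      rw [Real.exp_add, Real.exp_log ha0]
    rw [h1]
    exact Real.one_lt_exp_iff.2 (by nlinarith)
  have hig : 1 / γ < a := by
    rw [div_lt_iff₀ hγ0]; exact haγ
  have hig0 : 0 < 1 / γ := by positivity
  set s : ℝ := (a - 1 / γ) / 2 with hsd
  have hs0 : 0 < s := by linarith
  have hsa : s < a := by linarith
  have hsg : 1 < (a - s) * γ := by
    have e : (a - s) * γ = (a * γ + 1) / 2 := by
      rw [hsd]; field_simp; ring
    rw [e]; linarith
  refine ⟨γ, s, hγ, hs0, hsa, hsg, fun ε hε => ?_⟩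
  set ζ : ℝ := ((a - s) * γ - 1) / (γ - 1) with hζd
  have hg1 : 0 < γ - 1 := by linarith
  have hζ : 0 < ζ := div_pos (by linarith) hg1
  have hζg : 0 < ζ * (γ - 1) := mul_pos hζ hg1
  -- choice of `B`
  have t1 : Tendsto (fun b : ℝ => b ^ (-(a - s))) atTop (𝓝 0) :=
    tendsto_rpow_neg_atTop (by linarith)
  have t2 : Tendsto (fun b : ℝ => b ^ (-(ζ * (γ - 1)))) atTop (𝓝 0) := tendsto_rpow_neg_atTop hζg
  have e1 := t1.eventually (gt_mem_nhds (show (0 : ℝ) < ε / 8 by positivity))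
  have e2 := t2.eventually (gt_mem_nhds (show (0 : ℝ) < min (1 / 2) (ε / 16) by positivity))
  obtain ⟨B, hB⟩ := eventually_atTop.1 ((e1.and e2).and (eventually_gt_atTop 1))
  refine ⟨max B 2, by simp, fun b0 hb0 => ?_⟩
  obtain ⟨⟨hb1, hb2⟩, hb3⟩ := hB b0 (le_trans (le_max_left _ _) hb0)
  have hbpos : 0 < b0 := by linarith
  -- eventually in `n`
  have tL := logn_tendsto
  have tLL : Tendsto (fun n : ℕ => Real.log (Real.log (n : ℝ))) atTop atTop :=
    Real.tendsto_log_atTop.comp tL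
  have habs : |Real.log a| = -Real.log a := abs_of_neg hla
  have hla' : 0 < |Real.log a| := by rw [habs]; linarith
  -- constants
  set θ : ℝ := (1 - δ) * (1 + δ / 2) with hθd
  have hθ : θ < 1 := by rw [hθd]; nlinarith
  set D : ℝ := Real.log b0 * (2 * (1 - a + s) * γ / (γ - 1)) with hDd
  have hlb : 0 < Real.log b0 := Real.log_pos hb3
  have hD0 : 0 ≤ D := by
    rw [hDd]
    have : 0 ≤ 1 - a + s := by linarith
    positivity
  set c1 : ℝ := 2 * (1 - δ) / |Real.log a| with hc1d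
  have hc1 : 0 ≤ c1 := by rw [hc1d]; have : 0 ≤ 1 - δ := by linarith
                          positivity
  have lim1 := (lim_aux D θ hθ).comp tL
  have lim2 : Tendsto (fun n : ℕ => c1 * b0 ^ 2 * (Real.log n * Real.exp (D * (Real.log n) ^ θ -
      Real.log n))) atTop (𝓝 0) := by
    have := lim1.const_mul (c1 * b0 ^ 2)
    simpa using this
  have lim3 : Tendsto (fun n : ℕ => 1 / (n : ℝ)) atTop (𝓝 0) := tendsto_one_div_atTop_nhds_zero_nat
  -- `4 (1 - δ) LL ≤ n`
  have lim4 : ∀ᶠ n : ℕ in atTop, 2 * c1 * Real.log (Real.log (n : ℝ)) ≤ n := by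
    have h1 : Tendsto (fun n : ℕ => Real.log (n : ℝ) / (n : ℝ)) atTop (𝓝 0) := by
      have h2 := (Real.isLittleO_log_id_atTop).tendsto_div_nhds_zero
      exact h2.comp tendsto_natCast_atTop_atTop
    have h3 := h1.eventually (gt_mem_nhds (show (0 : ℝ) < 1 / (2 * c1 + 1) by positivity))
    filter_upwards [h3, tL.eventually_gt_atTop 0, eventually_gt_atTop 0] with n hn hLn hn0
    have hn0' : (0 : ℝ) < n := by exact_mod_cast hn0
    rw [div_lt_div_iff₀ hn0' (by positivity)] at hn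
    have h4 : Real.log (Real.log (n : ℝ)) ≤ Real.log n := by
      have := Real.log_le_sub_one_of_pos hLn
      linarith
    have : 2 * c1 * Real.log (Real.log (n : ℝ)) ≤ 2 * c1 * Real.log n := by gcongr
    nlinarith
  obtain ⟨N, hN⟩ := eventually_atTop.1 ((((lim2.eventually (gt_mem_nhds
    (show (0 : ℝ) < ε / 4 by positivity))).and (lim3.eventually (gt_mem_nhds
    (show (0 : ℝ) < ε / 4 by positivity)))).and (tLL.eventually_gt_atTop 0)).and
    ((tL.eventually_gt_atTop 1).and (lim4.and (eventually_gt_atTop 0))))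
  refine ⟨N, fun n hn => ?_⟩
  obtain ⟨⟨⟨k1, k2⟩, k3⟩, k4, k5, k6⟩ := hN n hn
  have hn0 : (0 : ℝ) < n := by exact_mod_cast k6
  have hLLe : 2 * (1 - δ) * LL a n = c1 * Real.log (Real.log n) := by
    rw [hc1d]; unfold LL; ring
  set h : ℝ := 2 * (1 - δ) * LL a n with hhd
  have hh0 : 0 ≤ h := by rw [hLLe]; positivity
  refine ⟨hh0, ?_, ?_⟩
  · rw [hLLe]; linarith
  · unfold bB
    have T1 : 1 / (n : ℝ) ≤ ε / 4 := k2.le
    have T2 : 2 * b0 ^ (s - a) ≤ ε / 4 := by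
      have : s - a = -(a - s) := by ring
      rw [this]; linarith
    have T3 : 2 * ∑ i ∈ Finset.range ⌊h⌋₊, b0 ^ (-(((a - s) * γ - 1) / (γ - 1)) * (γ ^ (i + 1) - 1) : ℝ)
        ≤ ε / 4 := by
      have h1 := third_term b0 γ ζ hb3 hγ hζ (hb2.le.trans (min_le_left _ _)) ⌊h⌋₊
      rw [hζd] at h1
      have h2 : b0 ^ (-(ζ * (γ - 1))) ≤ ε / 16 := hb2.le.trans (min_le_right _ _)
      rw [hζd] at h2
      linarith
    have T4 : (⌊h⌋₊ : ℝ) * (b0 ^ 2 / n * b0 ^ (2 * (1 - a + s) * γ ^ (⌊h⌋₊ / 2 + 1) / (γ - 1) : ℝ)) ≤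
        ε / 4 := by
      -- `γ ^ (⌊h⌋₊ / 2 + 1) ≤ γ * (log n) ^ θ`
      have h1 : ((⌊h⌋₊ / 2 : ℕ) : ℝ) ≤ h / 2 := by
        have h2 : ((⌊h⌋₊ / 2 : ℕ) : ℝ) ≤ (⌊h⌋₊ : ℝ) / 2 := Nat.cast_div_le
        have h3 : (⌊h⌋₊ : ℝ) ≤ h := Nat.floor_le hh0
        linarith
      have hLn : 0 < Real.log (n : ℝ) := by linarith
      have h4 : γ ^ (⌊h⌋₊ / 2 + 1) ≤ γ * (Real.log n) ^ θ := by
        rw [pow_succ, mul_comm]
        apply mul_le_mul_of_nonneg_left _ hγ0.le
        rw [← Real.rpow_natCast]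
        calc γ ^ ((⌊h⌋₊ / 2 : ℕ) : ℝ) ≤ γ ^ (h / 2) :=
              Real.rpow_le_rpow_of_exponent_le hγ.le h1
          _ = (Real.log n) ^ θ := by
              rw [Real.rpow_def_of_pos hγ0, Real.rpow_def_of_pos hLn, hγd, Real.log_exp]
              congr 1
              rw [hLLe, hc1d, hθd, habs]
              have : Real.log a ≠ 0 := hla.ne
              field_simp
      have h5 : b0 ^ (2 * (1 - a + s) * γ ^ (⌊h⌋₊ / 2 + 1) / (γ - 1) : ℝ) ≤
          Real.exp (D * (Real.log n) ^ θ) := by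
        rw [Real.rpow_def_of_pos hbpos]
        apply Real.exp_le_exp.2
        have h6 : 0 ≤ 1 - a + s := by linarith
        calc Real.log b0 * (2 * (1 - a + s) * γ ^ (⌊h⌋₊ / 2 + 1) / (γ - 1))
            ≤ Real.log b0 * (2 * (1 - a + s) * (γ * (Real.log n) ^ θ) / (γ - 1)) := by gcongr
          _ = D * (Real.log n) ^ θ := by rw [hDd]; ring
      have h7 : (⌊h⌋₊ : ℝ) ≤ c1 * Real.log n := by
        refine (Nat.floor_le hh0).trans ?_
        rw [hLLe]
        have := Real.log_le_sub_one_of_pos hLn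
        have : Real.log (Real.log n) ≤ Real.log (n : ℝ) := by linarith
        gcongr
      calc (⌊h⌋₊ : ℝ) * (b0 ^ 2 / n * b0 ^ (2 * (1 - a + s) * γ ^ (⌊h⌋₊ / 2 + 1) / (γ - 1) : ℝ))
          ≤ (c1 * Real.log n) * (b0 ^ 2 / n * Real.exp (D * (Real.log n) ^ θ)) := by gcongr
        _ = c1 * b0 ^ 2 * (Real.log n * Real.exp (D * (Real.log n) ^ θ - Real.log n)) := by
            rw [Real.exp_sub, Real.exp_log hn0]
            ring
        _ ≤ ε / 4 := k1.le
    linarith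

end Pool.Agent.Helper3.CP
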